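import Pool.Agent.helper32.TRI.Spec

/-!
# Row PR4 of project TRI (MP_561ff4_al): representatives of the pairs

RL4 and a finite check over the 24 roots and the 8 products of the commuting reflections at the nodes 0, 2, 3.
-/

set_option autoImplicit false

open Finset

namespace Pool.Agent.TRI

open Pool.Agent.EXC

/-- apply the reflection at `i` to the second component if `e` -/
def PR4_st (e : Bool) (i : Fin 4) (v : Fin 4 → ℤ) : Fin 4 → ℤ := if e then rf C4 i v else v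

theorem PR4_fix : rf C4 0 th4 = th4 ∧ rf C4 2 th4 = th4 ∧ rf C4 3 th4 = th4 := by decide +kernel

theorem PR4_chk : ∀ k : Fin 24, lt4 k = th4 ∨ ∃ j : Fin 6, ip C4 th4 (bt4 j) = ip C4 th4 (lt4 k) ∧
    ∃ e0 e2 e3 : Bool, PR4_st e3 3 (PR4_st e2 2 (PR4_st e0 0 (lt4 k))) = bt4 j := by decide +kernel

theorem PR4_wp (e : Bool) (i : Fin 4) (hi : rf C4 i th4 = th4) (v : Fin 4 → ℤ) : WP C4 (th4, v) (th4, PR4_st e i v) := by
  cases e with
  | false => exact Relation.ReflTransGen.refl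
  | true =>
    refine Relation.ReflTransGen.single ⟨i, ?_⟩
    simp [PR4_st, hi]

theorem PR4 (hRL4 : RL4_stmt) (hTO4 : TO4_stmt) : PR4_stmt := by
  intro F _ a b m hT hm
  obtain ⟨k, hk, β, hβ, hθβ, c, c', hc, hc', ha, hb⟩ := hT
  obtain ⟨i, rfl⟩ := hRL4 β hβ
  have hne : lt4 i ≠ th4 := by
    intro h
    rw [h, th4_root] at hθβ
    exact hm hθβ.symm
  rcases PR4_chk i with h | ⟨j, hj, e0, e2, e3, he⟩
  · exact absurd h hne
  have hwp : WP C4 (th4, lt4 i) (th4, bt4 j) := by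
    rw [← he]
    exact ((PR4_wp e0 0 PR4_fix.1 _).trans (PR4_wp e2 2 PR4_fix.2.1 _)).trans (PR4_wp e3 3 PR4_fix.2.2 _)
  obtain ⟨g, hg, s, s', hs, hs', hgs, hgs'⟩ := f_WPG 4 C4 F hb4 th4 (lt4 i) th4 (bt4 j) th4_root hβ hwp
  have hsF : (s : F) ≠ 0 := by
    rcases hs with rfl | rfl <;> simp
  have hsF' : (s' : F) ≠ 0 := by
    rcases hs' with rfl | rfl <;> simp
  have hα : ip C4 (sr 1) (sr 1) = 2 := by decide +kernel
  have hθα : ip C4 th4 (sr 1) = 1 := by decide +kernel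
  have hcs : c * (s : F) ≠ 0 := mul_ne_zero hc hsF
  obtain ⟨h, hh, hE⟩ := hTO4 4 C4 F hb4 (sr 1) hα (c * (s : F))⁻¹ (inv_ne_zero hcs)
  refine ⟨j, hj.trans hθβ, h * (g * k), mul_mem hh (mul_mem hg hk), (c' * (s' : F)) * ((c * (s : F))⁻¹ ^ ip C4 (bt4 j) (sr 1)),
    mul_ne_zero (mul_ne_zero hc' hsF') (zpow_ne_zero _ (inv_ne_zero hcs)), ?_, ?_⟩
  · show h (g (k a)) = _
    rw [ha, map_smul, hgs, map_smul, map_smul, hE th4 th4_root, hθα, zpow_one, smul_smul, smul_smul, mul_inv_cancel₀ hcs, one_smul]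
  · show h (g (k b)) = _
    rw [hb, map_smul, hgs', map_smul, map_smul, hE (bt4 j) (bt4_spec j).1, smul_smul, smul_smul]

end Pool.Agent.TRI
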